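import Pool.Agent.helper58.BR.SpecN
import Pool.Agent.helper95.LE.ALLT

set_option autoImplicit false

namespace Pool.Agent.BR

open Pool.Agent.helper58.DC Pool.Agent.DI Pool.Agent.GR Pool.Agent.OB Pool.Agent.DR Pool.Agent.FI Pool.Agent.FI3 Pool.Agent.FI4 Pool.Agent.LE

/-- the integer `|D : K| * ∑_(u ∈ K) ci u * PP u` is not zero -/
theorem CTR_ne (hBPQ : BPQ_stmt) (hPIV : PIV_stmt) (hCIN : CIN_stmt) (hCTP : CTP_stmt)
    {p : ℕ} {M : Ideal (integralClosure ℤ ℂ)} (hS : Setup p M) (hp2 : p ≠ 2) {G : Type} [Group G] [Finite G]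
    {D : Subgroup G} {x : G} {θ χ : G → ℂ} (lo : LoA p M D x θ χ) {h : ℕ} {K : Subgroup G}
    (hK : ∀ c : G, c ∈ K ↔ ∃ d ∈ D, d ^ p ^ (h + 1) = c) {m : ℕ} (hm : Gm2 p (Nat.card G) m)
    {ψ ψ₀ : G → ℂ} (hψ : ψ ∈ Bl M (⊤ : Subgroup G) θ) (hψm : PR m ψ) (hψ₀ : ψ₀ ∈ Bl M (⊤ : Subgroup G) θ) (hψ₀m : PR m ψ₀)
    {N : ℤ} (hN : (Nat.card D : ℂ) * PP p M θ ψ ψ₀ 1 = (N : ℂ)) (hNp : ¬ ((p : ℤ) ^ (h + 1)) ∣ N) :
    1 ≤ (K.relIndex D : ℝ) ^ 2 * ‖∑ᶠ u ∈ (K : Set G), ci M D θ u * PP p M θ ψ ψ₀ u‖ ^ 2 := by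
  classical
  have hp := hS.pr
  have hcom := lo.rt.com
  have hpg : IsPGroup p D := lo.rt.dfa.pgrp
  have hKD : K ≤ D := by
    intro y hy
    obtain ⟨d, hd, rfl⟩ := (hK y).1 hy
    exact D.pow_mem hd _
  letI := ALT_inst D hcom
  have hci := hCIN p M hp G D θ hcom hpg
  have hPEl : ∀ u ∈ D, PEl p u := by
    intro u hu
    obtain ⟨k, hk⟩ := hpg ⟨u, hu⟩
    exact ⟨k, congrArg (fun d : D => (d : G)) hk⟩
  have hn : ∀ l : D →* ℂˣ, ∃ n : ℤ, nl p M D θ l ψ ψ₀ = (n : ℂ) := fun l =>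
    hBPQ p M hS G D x θ χ lo l ψ hψ ψ₀ hψ₀
  choose n hn using hn
  obtain ⟨A, hA1, hA2⟩ := hCTP p hp hp2 h D hpg (K.subgroupOf D) (fun c => by
      rw [Subgroup.mem_subgroupOf, hK]
      constructor
      · rintro ⟨d, hd, e⟩
        exact ⟨⟨d, hd⟩, Subtype.ext e⟩
      · rintro ⟨d, e⟩
        exact ⟨d, d.2, congrArg (fun d : D => (d : G)) e⟩)
    (fun u => ci M D θ u * PP p M θ ψ ψ₀ u) n (fun l => by
      rw [← hn l]
      unfold nl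
      refine finsum_congr fun u => ?_
      ring) (fun u => by
      have h1 : ¬ p ∣ 1 + p := by
        intro h
        have h2 : p ∣ 1 := (Nat.dvd_add_left (dvd_refl p)).1 h
        exact hp.one_lt.ne' (Nat.dvd_one.1 h2)
      have h2 := (hci.2 u u.2).2 (1 + p) h1
      have h3 := hPIV p M hS G θ m hm ψ hψ.1 hψm ψ₀ hψ₀.1 hψ₀m u (hPEl u u.2) (1 + p) (by
        show (1 + p) % p = 1 % p
        simp)
      show ci M D θ ((u : G) ^ (1 + p)) * PP p M θ ψ ψ₀ ((u : G) ^ (1 + p)) = _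
      rw [h2, h3]) ((iI M D θ : ℤ) * N) (by
      show (Nat.card D : ℂ) * (ci M D θ 1 * PP p M θ ψ ψ₀ 1) = _
      rw [hci.1]
      push_cast
      rw [← hN]
      ring)
  have hpI : ¬ p ∣ iI M D θ := lo.bet
  have hA0 : A ≠ 0 := by
    rintro rfl
    rw [zero_sub, dvd_neg] at hA2
    apply hNp
    have h1 : IsCoprime ((p : ℤ) ^ (h + 1)) (iI M D θ : ℤ) := by
      apply IsCoprime.pow_left
      rw [Int.isCoprime_iff_gcd_eq_one, Int.gcd_natCast_natCast]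
      exact (Nat.Prime.coprime_iff_not_dvd hp).2 hpI
    exact h1.dvd_of_dvd_mul_left hA2
  have hsum : ∑ᶠ u ∈ ((K.subgroupOf D : Subgroup D) : Set D), ci M D θ u * PP p M θ ψ ψ₀ u =
      ∑ᶠ u ∈ (K : Set G), ci M D θ u * PP p M θ ψ ψ₀ u := by
    refine finsum_mem_eq_of_bijOn (fun u : D => (u : G)) ⟨?_, ?_, ?_⟩ (fun u _ => rfl)
    · intro u hu
      exact Subgroup.mem_subgroupOf.1 hu
    · exact Subtype.val_injective.injOn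
    · intro u hu
      exact ⟨⟨u, hKD hu⟩, Subgroup.mem_subgroupOf.2 hu, rfl⟩
  have hA3 : (K.relIndex D : ℂ) * ∑ᶠ u ∈ (K : Set G), ci M D θ u * PP p M θ ψ ψ₀ u = (A : ℂ) := by
    rw [← hsum, ← hA1]
    rfl
  have h4 : ((K.relIndex D : ℝ) * ‖∑ᶠ u ∈ (K : Set G), ci M D θ u * PP p M θ ψ ψ₀ u‖) = |(A : ℝ)| := by
    have h5 := congrArg norm hA3
    rw [norm_mul, Complex.norm_natCast, Complex.norm_intCast] at h5
    exact h5
  rw [← mul_pow, h4, sq_abs]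
  have h6 : (1 : ℤ) ≤ A ^ 2 := by
    have := sq_pos_of_ne_zero hA0
    omega
  exact_mod_cast h6

theorem CTR (hBPQ : BPQ_stmt) (hPS0 : PS0_stmt) (hPRO : PRO_stmt) (hPIV : PIV_stmt) (hCIN : CIN_stmt) (hCTP : CTP_stmt) :
    CTR_stmt := by
  classical
  intro p M hS hp2 G _ _ D x θ χ lo h hI K hK m hm
  obtain ⟨ψ₀, hψ₀, hψ₀m, hP⟩ := hPS0 p M hS hp2 G D x θ χ lo m hm
  have hKD : K ≤ D := by
    intro y hy
    obtain ⟨d, hd, rfl⟩ := (hK y).1 hy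
    exact D.pow_mem hd _
  have hKinv : ∀ t ∈ TT M D θ, ∀ k ∈ K, t * k * t⁻¹ ∈ K := by
    intro t ht k hk
    obtain ⟨d, hd, rfl⟩ := (hK k).1 hk
    refine (hK _).2 ⟨t * d * t⁻¹, (Subgroup.mem_normalizer_iff.1 ht.1 d).1 hd, ?_⟩
    rw [conj_pow]
  have hsum := hPRO p M hS G D x θ χ lo K hKD hKinv ψ₀ hψ₀
  have hfin : (Bl M (⊤ : Subgroup G) θ).Finite := (IrrOn_fin (⊤ : Subgroup G)).subset fun φ h => h.1
  rw [finsum_mem_eq_finite_toFinset_sum _ hfin] at hsum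
  have hX : {ψ : G → ℂ | ψ ∈ Bl M (⊤ : Subgroup G) θ ∧ PR m ψ} = ((hfin.toFinset.filter (fun ψ => PR m ψ) : Finset (G → ℂ)) : Set (G → ℂ)) := by
    ext ψ
    simp
  rw [hX, Set.ncard_coe_finset]
  have h1 : ((hfin.toFinset.filter (fun ψ => PR m ψ)).card : ℝ) ≤ ((iI M D θ ^ 2 * K.relIndex D ^ 2 : ℕ) : ℝ) := by
    calc ((hfin.toFinset.filter (fun ψ => PR m ψ)).card : ℝ)
        = ∑ ψ ∈ hfin.toFinset.filter (fun ψ => PR m ψ), (1 : ℝ) := by simp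
      _ ≤ ∑ ψ ∈ hfin.toFinset.filter (fun ψ => PR m ψ),
          (K.relIndex D : ℝ) ^ 2 * ‖∑ᶠ u ∈ (K : Set G), ci M D θ u * PP p M θ ψ ψ₀ u‖ ^ 2 := by
          refine Finset.sum_le_sum fun ψ hψ => ?_
          obtain ⟨hψ1, hψ2⟩ := Finset.mem_filter.1 hψ
          have hψ3 : ψ ∈ Bl M (⊤ : Subgroup G) θ := (Set.Finite.mem_toFinset hfin).1 hψ1
          obtain ⟨N, hN, hNp⟩ := hP h hI ψ hψ3
          exact CTR_ne hBPQ hPIV hCIN hCTP hS hp2 lo hK hm hψ3 hψ2 hψ₀ hψ₀m hN hNp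
      _ ≤ ∑ ψ ∈ hfin.toFinset,
          (K.relIndex D : ℝ) ^ 2 * ‖∑ᶠ u ∈ (K : Set G), ci M D θ u * PP p M θ ψ ψ₀ u‖ ^ 2 := by
          refine Finset.sum_le_sum_of_subset_of_nonneg (Finset.filter_subset _ _) fun ψ _ _ => ?_
          positivity
      _ = (K.relIndex D : ℝ) ^ 2 * ∑ ψ ∈ hfin.toFinset, ‖∑ᶠ u ∈ (K : Set G), ci M D θ u * PP p M θ ψ ψ₀ u‖ ^ 2 := by
          rw [Finset.mul_sum]
      _ ≤ (K.relIndex D : ℝ) ^ 2 * (iI M D θ : ℝ) ^ 2 := mul_le_mul_of_nonneg_left hsum (by positivity)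
      _ = ((iI M D θ ^ 2 * K.relIndex D ^ 2 : ℕ) : ℝ) := by
          push_cast
          ring
  exact_mod_cast h1

end Pool.Agent.BR
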