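import Pool.Agent.helper70.LZ.AllZ
import Pool.Agent.helper83.FI.AllR
import Pool.Agent.helper58.BR.CTR
import Pool.Agent.helper49.BR.BD3
import Pool.Agent.helper13.BR.BDR2
import Pool.Agent.helper87.BR.BPQ
import Pool.Agent.helper59.BR.CIN
import Pool.Agent.helper6.BR.CTP
import Pool.Agent.helper23.BR.HEX
import Pool.Agent.helper89.BR.PPL
import Pool.Agent.helper59.BR.PPX
import Pool.Agent.helper34.BR.PRI
import Pool.Agent.helper34.BR.PDV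
import Pool.Agent.helper23.BR.RKI
import Pool.Agent.helper57.BR.ORS
import Pool.Agent.helper92.BR.RKP

/-!
# Project BR (MP_baa4d7_al), block N: all rows

`nHEX`, `nRKI`, `nPPL` have no hypotheses; `nBD3`, `nBDR2` need `BPM` (block BP) and `PS0`, `PRO`, `PIV` (block H).
-/

set_option autoImplicit false

namespace Pool.Agent.BR.AllN

open Pool.Agent Pool.Agent.helper58.DC Pool.Agent.DI Pool.Agent.GR Pool.Agent.OB Pool.Agent.DR Pool.Agent.FI Pool.Agent.FI3 Pool.Agent.FI4 Pool.Agent.LE Pool.Agent.BR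

theorem nPRI : PRI_stmt := BR.PRI
theorem nPDV : PDV_stmt := BR.PDV
theorem nORS : ORS_stmt := BR.ORS
theorem nCTP : CTP_stmt := BR.CTP nORS AllB.lPER
theorem nRKP : RKP_stmt := BR.RKP
theorem nPPX : PPX_stmt := BR.PPX FI.AllR.rEVM GR.All.dIDM AllQ1.qQRS AllQ1.qQCE
theorem nPPL : PPL_stmt := BR.PPL nPPX AllZ.zZPL AllQ1.qQRS AllQ1.qQCE
theorem nCIN : CIN_stmt := BR.CIN
theorem nBPQ (hBPM : BPM_stmt) : BPQ_stmt := BR.BPQ hBPM nPPL nCIN nPRI nPDV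
theorem nCTR (hBPM : BPM_stmt) (hPS0 : PS0_stmt) (hPRO : PRO_stmt) (hPIV : PIV_stmt) : CTR_stmt :=
  BR.CTR (nBPQ hBPM) hPS0 hPRO hPIV nCIN nCTP
theorem nBD3 (hBPM : BPM_stmt) (hPS0 : PS0_stmt) (hPRO : PRO_stmt) (hPIV : PIV_stmt) : BD3_stmt :=
  BR.BD3 (nCTR hBPM hPS0 hPRO hPIV) AllP4.pLOA AllB.lGM2 AllB.lCNL AllK.kLLN AllA.dTPR
theorem nHEX : HEX_stmt := BR.HEX
theorem nRKI : RKI_stmt := BR.RKI nRKP
theorem nBDR2 (hBPM : BPM_stmt) (hPS0 : PS0_stmt) (hPRO : PRO_stmt) (hPIV : PIV_stmt) : BDR2_stmt :=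
  BR.BDR2 (nBD3 hBPM hPS0 hPRO hPIV) nRKI AllP4.pLOA

end Pool.Agent.BR.AllN
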