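import Mathlib
import Pool.Agent.helper12.BR.DefsR
import Pool.Agent.helper95.LE.ALLB
import Pool.Agent.helper12.LE.SpecB

/-!
# Project BR (MP_baa4d7_al), BOUND-R, block N: from `p`-integrality to integrality, counting, numerics, heredity, final statement

RULES. File `Pool/Agent/<seat>/BR/XXX.lean` (directory BR) with

  import Pool.Agent.helper58.BR.SpecN
  set_option autoImplicit false
  namespace Pool.Agent.BR
  open Pool.Agent.helper58.DC Pool.Agent.DI Pool.Agent.GR Pool.Agent.OB Pool.Agent.DR Pool.Agent.FI Pool.Agent.FI3 Pool.Agent.FI4 Pool.Agent.LE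
  theorem XXX (hYYY : YYY_stmt) ... : XXX_stmt := ...
  end Pool.Agent.BR

auxiliary lemmas prefixed `XXX_`, no sorry, no double quotes in the file, no `convert`, no `congr!`. The rows named in the docstring are hypotheses (exact line in the lock note); all rows of the older specs (proved) may be added as further hypotheses at the end.
-/

set_option autoImplicit false

namespace Pool.Agent.BR

open Pool.Agent.helper58.DC Pool.Agent.DI Pool.Agent.GR Pool.Agent.OB Pool.Agent.DR Pool.Agent.FI Pool.Agent.FI3 Pool.Agent.FI4 Pool.Agent.LE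

/-! ## 1. Pure rows -/

/-- **PRI** (short to medium; pure; Mathlib only). An integer polynomial which is constant on the primitive `n`-th roots of unity has an integer value there. Proof: `K = CyclotomicField n ℚ`, `x = aeval (zeta) Q`; all embeddings `σ : K →ₐ[ℚ] ℂ` give `σ x = aeval (σ zeta) Q`, `σ zeta` a primitive root, `= ζ ^ s` with `s` prime to `n`
(`IsPrimitiveRoot.isPrimitiveRoot_iff`), so `= aeval ζ Q`. The trace of `x` is `∑_σ σ x = [K : ℚ] x` (`trace_eq_sum_embeddings`) so `aeval ζ Q` is rational, and it is integral over `ℤ`: an integer (`IsIntegrallyClosed.isIntegral_iff`). Models: `NRC` (`Pool/Agent/*/FI4/NRC.lean`), ZL3 (`Pool/Agent/*/LZ/ZL3.lean`). -/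
def PRI_stmt : Prop :=
  ∀ n : ℕ, 0 < n → ∀ Q : Polynomial ℤ, ∀ ζ : ℂ, IsPrimitiveRoot ζ n →
    (∀ s : ℕ, s.Coprime n → Polynomial.aeval (ζ ^ s) Q = Polynomial.aeval ζ Q) → ∃ a : ℤ, Polynomial.aeval ζ Q = (a : ℂ)

/-- **PDV** (short; from the lemmas of `helper83/GR/Ari`; compare the end of ZL5, `helper23/LZ/ZL5.lean`). `z = a / p ^ N` integral at `p` is an integer. Proof: induction on `N`; `N + 1`: `p ^ (N + 1) z = a`; if `p ∤ a` then `a = p * (p ^ N z)` with `p ^ N z` `IntAt` and `p` `InM` gives `InM a`, a contradiction (`InM.natCast`, `InM.intCast`); `a = p a'`, `p ^ N z = a'`. -/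
def PDV_stmt : Prop :=
  ∀ (p : ℕ) (M : Ideal (integralClosure ℤ ℂ)), Setup p M → ∀ (N : ℕ) (z : ℂ) (a : ℤ), IntAt M z → (p : ℂ) ^ N * z = (a : ℂ) →
    ∃ b : ℤ, z = (b : ℂ)

/-- **ORS** (short to medium; pure; Mathlib only). Orbits. Proof: `σ l = l ^ (1 + p)` is a permutation of the finite set `Y = {l | l ^ p ^ (h + 1) ≠ 1}` (`1 + p` is prime to `|Λ|`, a power of `p`; `powCoprime`; `(l ^ (1 + p)) ^ p ^ (h + 1) = 1` iff `l ^ p ^ (h + 1) = 1`), and `f (σ l) = f l`. Let `Z = zpowers σ` (or `Multiplicative (ZMod (p ^ N))`);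
`σ ^ p ^ N = 1` (`(1 + p) ^ p ^ N ≡ 1` modulo `p ^ (N + 1)`). Every orbit of `Z` on `Y` has `p ^ j` elements for some `j` (the index of a stabiliser in a cyclic `p`-group), and `f` is constant on it; if `j ≤ h` then `σ ^ p ^ h` fixes `l` (`σ ^ p ^ j` fixes it): `l ^ ((1 + p) ^ p ^ h - 1) = 1`, and `(1 + p) ^ p ^ h - 1 = p ^ (h + 1) k` with `p ∤ k` (`p` odd; induction on `h`, or
`Nat.emultiplicity_pow_sub_pow`/`padicValNat.pow_sub_pow`), so `(l ^ p ^ (h + 1)) ^ k = 1`, `l ^ p ^ (h + 1) = 1`: a contradiction. So `p ^ (h + 1)` divides the sum over each orbit (`MulAction.selfEquivSigmaOrbits` or `Finset.sum_partition`). -/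
def ORS_stmt : Prop :=
  ∀ p : ℕ, p.Prime → p ≠ 2 → ∀ (h : ℕ) (Λ : Type) [CommGroup Λ] [Finite Λ], IsPGroup p Λ → ∀ f : Λ → ℤ,
    (∀ l, f (l ^ (1 + p)) = f l) → ((p : ℤ) ^ (h + 1)) ∣ ∑ᶠ l ∈ {l : Λ | l ^ p ^ (h + 1) ≠ 1}, f l

/-- **CTP** (short to medium; pure; from ORS, PER). Counting. Proof: `Λ = D →* ℂˣ` is finite, a `p`-group (`l ^ |D| = 1`), `l ^ p ^ (h + 1) = 1` iff `l = 1` on `K` (`l (d ^ p ^ (h + 1)) = (l ^ p ^ (h + 1)) d`). `∑_(l = 1 on K) l u` is `K.index` for `u ∈ K` and `0` otherwise (PER: the number of these `l` is `K.index`; for `u ∉ K` choose `w = 1` on `K` with `w u ≠ 1`, the sum is `w u` times itself).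
So `∑_(l = 1 on K) n l = K.index * ∑_(u ∈ K) c u =: A`, and the sum over all `l` (the same with `K = ⊥`) is `|D| c 1 = N`. `n (l ^ (1 + p)) = ∑_u c u * l (u ^ (1 + p)) = ∑_u c (u ^ (1 + p)) * l (u ^ (1 + p)) = n l` (`u ↦ u ^ (1 + p)` is a permutation of `D`: `powCoprime`). ORS: `p ^ (h + 1)` divides the sum of the `n l` over the other `l`, which is `N - A`. -/
def CTP_stmt : Prop :=
  ∀ p : ℕ, p.Prime → p ≠ 2 → ∀ (h : ℕ) (D : Type) [CommGroup D] [Finite D], IsPGroup p D → ∀ K : Subgroup D,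
    (∀ c : D, c ∈ K ↔ ∃ d : D, d ^ p ^ (h + 1) = c) → ∀ (c : D → ℂ) (n : (D →* ℂˣ) → ℤ),
    (∀ l, ∑ᶠ u, c u * (l u : ℂ) = (n l : ℂ)) → (∀ u, c (u ^ (1 + p)) = c u) → ∀ N : ℤ, (Nat.card D : ℂ) * c 1 = (N : ℂ) →
    ∃ A : ℤ, (K.index : ℂ) * ∑ᶠ u ∈ (K : Set D), c u = (A : ℂ) ∧ ((p : ℤ) ^ (h + 1)) ∣ A - N

/-- **RKP** (short; pure; from `ALL_ord`, `ALL_idx` of `helper95/LE/ALLB`, `ALLA`). The order of a `p'`-group of automorphisms. Proof: `(ALL_F p P).index = p ^ d` divides the index of the `p`-th powers (they are in `ALL_F p P`: `ALL_del φ (v ^ p) = (ALL_del φ v) ^ p`), which is `|A[p]| ≤ p ^ r` (`ALL_idx`), so `d ≤ r` (copy from WIN, `helper85/RB/WIN.lean`); `|P| ≤ ALL_c p d` (`ALL_ord`)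
`≤ ALL_c p r` (`ALL_c_mono`) `= ∏_(i < r) (p ^ (i + 1) - 1) < ∏_(i < r) p ^ (i + 1) = p ^ (r (r + 1) / 2)` (`1 ≤ r`; `Finset.sum_range_id`-type identity, `Finset.prod_pow_eq_pow_sum`). Second: `|A| = |A[q]| |A ^ q|` (`ALL_idx`), `|A[p ^ i]| ≤ |A[p]| ^ i` (`ALL_om`). -/
def RKP_stmt : Prop :=
  ∀ (p r : ℕ), p.Prime → 1 ≤ r → ∀ (A : Type) [CommGroup A] [Finite A], IsPGroup p A →
    Nat.card (powMonoidHom p : A →* A).ker ≤ p ^ r →
    (∀ P : Subgroup (MulAut A), ¬ p ∣ Nat.card P → Nat.card P < p ^ (r * (r + 1) / 2)) ∧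
    ∀ i : ℕ, (powMonoidHom (p ^ i) : A →* A).range.index ≤ p ^ (r * i)

/-! ## 2. Integrality -/

/-- **PPX** (short to medium; from EVM, IDM, QRS, QCE; compare ZAX, `helper51/LZ/ZAX.lean`). Expansion. Proof: `K = Cz ⊤ u`, `S = Bl M K θ`, `e = eS K S`. For `g ∈ K`: `ev ψ e g = ∑_x e x * ψ (g x)`, only `x ∈ K` contribute (`CF K e`: IDM), `ψ = ∑_(η ∈ IrrOn K) mt K ψ η * η` on `K` (QRS), `ev η e g = cc η e * η g` (EVM) and `cc η e` is `1` for `η ∈ S`, `0` otherwise (IDM): `ev ψ e g = ∑_(η ∈ S) mt K ψ η * η g`.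
For `p`-regular `v ∈ K`: `η (u v) = (η u / η 1) η v` (QCE, `u` is central in `K`), `(u v)⁻¹ = u⁻¹ v⁻¹`; substitute `v ↦ v⁻¹` in the sum over `v`. -/
def PPX_stmt : Prop :=
  ∀ (p : ℕ) (M : Ideal (integralClosure ℤ ℂ)) (G : Type) [Group G] [Finite G] (θ : G → ℂ) (u : G),
    ∀ ψ ∈ IrrOn (⊤ : Subgroup G), ∀ ψ' : G → ℂ,
    PP p M θ ψ ψ' u = ∑ᶠ η ∈ Bl M (Cz (⊤ : Subgroup G) u) θ,
      mt (Cz (⊤ : Subgroup G) u) ψ η * (η u / η 1) * az p (Cz (⊤ : Subgroup G) u) η ψ' u⁻¹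

/-! **PPL** is stated in `DefsR` (short to medium; from PPX, ZPL, QRS, QCE; model `helper27/LZ/ZPL.lean`: COPY). Proof: `K = Cz ⊤ u = Cz ⊤ u⁻¹`; for `s` prime to `p` `Cz ⊤ (u ^ s) = K` (`u` is a power of `u ^ s`, `D` is a `p`-group: `lo.rt.dfa.pgrp`). PPX for `u ^ s`; `η (u ^ s) / η 1 = (η u / η 1) ^ s = ζ ^ (e s)` (as in ZPL), `(u ^ s)⁻¹ = (u⁻¹) ^ s`, ZPL for `z = u⁻¹`, `η₀ = η`:
`|D| az p K η ψ' ((u⁻¹) ^ s) = P_η(ζ ^ s)`, `mt K ψ η = m_η` natural (QRS). `P = ∑_η C m_η * X ^ e_η * P_η`. -/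

/-- **CIN** (short; pure group theory). `ci` is a natural number, invariant, and `ci 1 = iI`. Proof: `cz D ≤ Cz T u` for `u ∈ D` (`T = TT M D θ`; `cz_le_TT`), so `|Cz T u| = |cz D| * (cz D).relIndex (Cz T u)`; `Cz T (u ^ s) = Cz T u` (`u` is a power of `u ^ s`); `Cz T 1 = T`. -/
def CIN_stmt : Prop :=
  ∀ (p : ℕ) (M : Ideal (integralClosure ℤ ℂ)), p.Prime → ∀ (G : Type) [Group G] [Finite G] (D : Subgroup G) (θ : G → ℂ),
    (∀ c ∈ D, ∀ d ∈ D, c * d = d * c) → IsPGroup p D → ci M D θ 1 = (iI M D θ : ℂ) ∧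
    ∀ u ∈ D, (∃ k : ℕ, ci M D θ u = (k : ℂ)) ∧ ∀ s : ℕ, ¬ p ∣ s → ci M D θ (u ^ s) = ci M D θ u

/-! **BPQ** is stated in `DefsR` (medium; from BPM, PPL, CIN, PRI, PDV). Proof: `n = |D| = p ^ N`, `ζ` a primitive `n`-th root of unity. For `u : D`: `P_u` from PPL (`u ^ n = 1`), `ci u = k_u`, `l u = ζ ^ e_u` (`(l u) ^ n = 1`). `Q = ∑_u C k_u * X ^ e_u * P_u`. For `s` prime to `n`, if `n ≠ 1` (then `p ∤ s`; if `n = 1`, `ζ = 1`, `ζ ^ s = ζ`):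
`Q(ζ ^ s) = ∑_u k_u (l u) ^ s |D| PP (u ^ s) = ∑_u ci (u ^ s) l (u ^ s) |D| PP (u ^ s) = Q(ζ) = |D| n_l` (`u ↦ u ^ s` is a permutation of `D`: `powCoprime`; group structure `ALT_inst` not needed if you reindex by an explicit inverse power, or use `letI := ALT_inst D com`). PRI: `|D| n_l = a`; PDV with BPM. -/

/-! ## 3. Counting -/

/-! **CTR** is stated in `DefsR` (medium; from BPQ, PS0, PRO, PIV, CIN, CTP). Proof: `ψ₀` from PS0. For `ψ ∈ X`: `c u = ci u * PP ψ ψ₀ u` on the type `D` (commutative: `ALT_inst`), `n l` from BPQ (`nl = ∑ ci u * l u * PP = ∑ c u * l u`), `c (u ^ (1 + p)) = c u` (CIN, PIV; `PEl p u`), `|D| c 1 = iI * N'` (`ci 1 = iI`, PS0). CTP for `K.subgroupOf D`: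
the integer `A ψ = |D : K| * ∑_(u ∈ K) ci u * PP u`, `A ψ ≡ iI * N'` modulo `p ^ (h + 1)`, so `A ψ ≠ 0` (`p ∤ iI`: `lo.bet`), `‖A ψ‖ ≥ 1`. PRO (`K ≤ D`, `K` is `T`-invariant as `t d ^ q t⁻¹ = (t d t⁻¹) ^ q`): `|X| ≤ ∑_(ψ ∈ X) ‖A ψ‖² ≤ |D : K|² ∑_(ψ ∈ Bl) ‖∑_(u ∈ K) ..‖² ≤ |D : K|² iI²`. -/

/-- The hypothesis: `iI < p ^ (h + 1)` and `iI ^ 2 |D : D ^ (p ^ (h + 1))| ^ 2 ≤ p ^ c` for some `h`. -/
def HIX (p c : ℕ) : HP := fun _ _ _ D T => ∃ (h : ℕ) (K : Subgroup _), (∀ y, y ∈ K ↔ ∃ d ∈ D, d ^ p ^ (h + 1) = y) ∧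
  (cz D).relIndex T < p ^ (h + 1) ∧ ((cz D).relIndex T) ^ 2 * (K.relIndex D) ^ 2 ≤ p ^ c

/-- **BD3** (short; from CTR and the hypotheses LOA, GM2, CNL, LLN, TPR of `BDA_le`; COPY of `helper5/LZ/BDZ.lean`). -/
def BD3_stmt : Prop :=
  ∀ (p : ℕ) (M : Ideal (integralClosure ℤ ℂ)), Setup p M → p ≠ 2 → ∀ c : ℕ, BDH p M (HIX p c) (p ^ c)

/-- **HEX** (short; compare `helper36/LZ/HEZ.lean`, `helper9/RB/HRR.lean`, `helper58/LE/HHE.lean`, `HerT_idx`, `HHE_krt`). Heredity. Proof: `N`: `K.subgroupOf N` (`K ≤ D ≤ N`), `(K.subgroupOf N).relIndex (D.subgroupOf N) = K.relIndex D`, `(cz D).relIndex T` goes down (`HerT_idx`); conjugates: `cjS g K`. HRK: as HRR and HEZ. -/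
def HEX_stmt : Prop :=
  ∀ p : ℕ, p.Prime → ∀ c r : ℕ, Her p (HIX p c) ∧ Her p (HRK p r c)

/-- **RKI** (short to medium; from RKP; `ALT_inst`, `ALT_rho`, `ALT_card` of `helper95/LE/ALLT.lean`, `BDR_card` and the end of `helper60/RB/BDR.lean`). Proof: `h + 1 = r (r + 1) / 2 ≥ 1`, `K` the image of the `p ^ (h + 1)`-th powers of `D`; `|I| < p ^ (h + 1)`, `|D : K| ≤ p ^ (r (h + 1))`, so `|I| ^ 2 |D : K| ^ 2 ≤ p ^ (2 (r + 1) (h + 1)) = p ^ (r (r + 1) ^ 2)`. -/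
def RKI_stmt : Prop :=
  ∀ (p r : ℕ), p.Prime → 1 ≤ r → ∀ (G : Type) [Group G] [Finite G] (D T : Subgroup G), (∀ c ∈ D, ∀ d ∈ D, c * d = d * c) →
    IsPGroup p D → T ≤ nz D → ¬ p ∣ (cz D).relIndex T → {u | u ∈ D ∧ u ^ p = 1}.ncard ≤ p ^ r → HIX p (r * (r + 1) ^ 2) G D T

/-! **BDR2** is stated in `DefsR` (short; from BD3, RKI, LOA): `BDH` for `HRK p r c` from `BDH` for `HIX p c`; `com`, `pg`, `nor`, `cop` from `Rt` and `LOA` as in `BDR_gdt`. -/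

end Pool.Agent.BR
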