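import Pool.Agent.helper45.BR.Spec

/-!
# Project br: module BRG (the bridge)
-/

set_option autoImplicit false

open Complex Metric Set Filter Topology MeasureTheory MPS Pool.Agent.helper98.ILF
  Pool.Agent.helper16.Multibrot

noncomputable section

namespace BR

theorem BRG_fd0 (n : ℕ) (hn : 2 ≤ n) : fd n 0 = 0 := by
  unfold fd
  rw [zero_pow (by omega), mul_zero]

theorem BRG_deriv (n : ℕ) (c z : ℂ) : deriv (fun z : ℂ => z ^ n + c) z = fd n z := by
  have h : HasDerivAt (fun z : ℂ => z ^ n + c) (n * z ^ (n - 1)) z :=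
    (hasDerivAt_pow n z).add_const c
  rw [h.deriv]
  rfl

theorem BRG_CTdiv (m : ℂ → ℂ) (M : ℂ) (b : ℂ) :
    NLF.CT (fun z => m z / M) b = NLF.CT m b / M := by
  unfold NLF.CT
  rw [← integral_div]
  congr 1
  funext z
  rw [div_right_comm]

theorem BRG_CTzero (m : ℂ → ℂ) (h : ∀ᵐ z : ℂ, m z = 0) (b : ℂ) : NLF.CT m b = 0 := by
  unfold NLF.CT
  have : (fun z : ℂ => m z / (z - b)) =ᵐ[volume] fun _ => (0 : ℂ) := by
    filter_upwards [h] with z hz
    rw [hz, zero_div]
  rw [integral_congr_ae this]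
  simp

/-- from the invariant vector field to the line field. -/
theorem BRG_line (n : ℕ) (c : ℂ) (m : ℂ → ℂ) (hm : Measurable m)
    (hJ : ∀ z, m z ≠ 0 → z ∈ juliaSet (fun z : ℂ => z ^ n + c))
    (hinv : ∀ᵐ z : ℂ, m (z ^ n + c) * (starRingEnd ℂ) (fd n z) / fd n z = m z)
    (hnz : ¬ ∀ᵐ z : ℂ, m z = 0) :
    IsInvariantLineField (fun z : ℂ => z ^ n + c) (fun z => m z / (‖m z‖ : ℂ)) ∧
      ∀ z, m z = ‖m z‖ * (m z / (‖m z‖ : ℂ)) := by
  have hset : {z | m z / (‖m z‖ : ℂ) ≠ 0} = {z | m z ≠ 0} := by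
    ext z
    simp only [mem_ofPred_eq, ne_eq, div_eq_zero_iff, Complex.ofReal_eq_zero, norm_eq_zero, or_self]
  refine ⟨⟨?_, ?_, ?_, ?_, ?_⟩, ?_⟩
  · exact hm.div (Complex.measurable_ofReal.comp hm.norm)
  · intro z hz
    have h1 : m z ≠ 0 := by
      have : z ∈ {z | m z / (‖m z‖ : ℂ) ≠ 0} := hz
      rw [hset] at this
      exact this
    rw [norm_div, Complex.norm_real, norm_norm]
    exact div_self (norm_ne_zero_iff.2 h1)
  · rw [hset]
    refine lt_of_le_of_ne bot_le fun h0 => hnz ?_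
    rw [ae_iff]
    exact h0.symm
  · rw [hset]
    exact fun z hz => hJ z hz
  · filter_upwards [hinv] with z hz
    rw [BRG_deriv]
    by_cases hf : fd n z = 0
    · have h0 : m z = 0 := by
        rw [← hz, hf]; simp
      rw [hf, h0]; simp
    · have hn1 : ‖m (z ^ n + c)‖ = ‖m z‖ := by
        have := congrArg norm hz
        rw [norm_div, norm_mul, RCLike.norm_conj,
          mul_div_assoc, div_self (norm_ne_zero_iff.2 hf), mul_one] at this
        exact this
      have : m (z ^ n + c) / (‖m (z ^ n + c)‖ : ℂ) * (starRingEnd ℂ) (fd n z) / fd n z =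
          (m (z ^ n + c) * (starRingEnd ℂ) (fd n z) / fd n z) / (‖m (z ^ n + c)‖ : ℂ) := by ring
      show m (z ^ n + c) / (‖m (z ^ n + c)‖ : ℂ) * (starRingEnd ℂ) (fd n z) / fd n z = _
      rw [this, hz, hn1]
  · intro z
    by_cases h0 : m z = 0
    · rw [h0]; simp
    · rw [mul_div_cancel₀]
      simpa using h0

theorem BRG (hBAS : BAS_stmt) (hEMP : EMP_stmt) (hJFR : JFR_stmt) (hDSB : DSB_stmt)
    (hMBB : MBB_stmt) (hLMV : LMV_stmt) (hCRV : CRV_stmt) (hEXV : EXV_stmt) (hREP : REP_stmt)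
    (hIVM : IVM_stmt) (hZN : ZN_stmt) : BRG_stmt := by
  intro n c r hn hr hc hdisj
  have hAR := hZN n c r hn hdisj
  have hball : ball c r ⊆ multibrot n := hDSB n c r hn hr hc hdisj
  have hc2 : ‖c‖ ≤ 2 := ((hMBB n c hn).1 hc).1
  have hc3 : ‖c‖ ≤ 3 := by linarith
  have hARc : AR n c := fun k z hk hz => hAR c (mem_ball_self hr) k z hk hz
  have hemp : interior (filled n c) = ∅ := hEMP n c hn hc3 hARc
  have hjul : juliaSet (fun z : ℂ => z ^ n + c) = filled n c := by
    rw [hJFR n c hn, (isClosed_filled n c).frontier_eq, hemp, sdiff_empty]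
  obtain ⟨hK4, -, -, -, -⟩ := hBAS n c hn hc3
  have hMpos : 0 < 4000 / r := by positivity
  have hOpen : IsOpen (filled n c)ᶜ := (isClosed_filled n c).isOpen_compl
  have hDense : Dense (filled n c)ᶜ := interior_eq_empty_iff_dense_compl.1 hemp
  obtain ⟨-, -, hfun, hdiff, hbig⟩ := hLMV n c hn hc
  have hout : {z : ℂ | 4 ≤ ‖z‖} ⊆ (filled n c)ᶜ := by
    intro z hz hzK
    have h1 := hK4 hzK
    rw [mem_ball_zero_iff] at h1
    have h2 : 4 ≤ ‖z‖ := hz
    linarith
  have hV1 : ∀ z : ℂ, 4 ≤ ‖z‖ → ‖VV n c z‖ ≤ 1 := by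
    intro z hz
    refine (hbig z hz).trans ?_
    rw [div_le_one (by linarith)]
    linarith
  obtain ⟨v, hvc, hvV, hvCR⟩ := hEXV (VV n c) (filled n c)ᶜ (4000 / r) hMpos.le hOpen hDense hout
    hV1 hdiff.continuousOn (hCRV n c r hn hr hball)
  -- the functional equation
  have hfeq : ∀ z, v (z ^ n + c) = fd n z * v z + 1 := by
    have hcl : IsClosed {z : ℂ | v (z ^ n + c) = fd n z * v z + 1} := by
      refine isClosed_eq ?_ ?_
      · exact hvc.comp (by fun_prop)
      · have : Continuous (fd n) := by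
          unfold fd
          fun_prop
        exact (this.mul hvc).add continuous_const
    have hsub : (filled n c)ᶜ ⊆ {z : ℂ | v (z ^ n + c) = fd n z * v z + 1} := by
      intro z hz
      have hz' : z ^ n + c ∈ (filled n c)ᶜ := by
        intro h
        have : z ∈ (fun z : ℂ => z ^ n + c) ⁻¹' filled n c := h
        rw [preimage_filled hn] at this
        exact hz this
      show v (z ^ n + c) = fd n z * v z + 1
      rw [hvV hz', hvV hz]
      exact hfun z hz
    intro z
    have : z ∈ closure (filled n c)ᶜ := hDense z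
    exact (closure_minimal hsub hcl) this
  have hvdiff : DifferentiableOn ℂ v (filled n c)ᶜ := hdiff.congr fun z hz => hvV hz
  have hvbig : ∀ z : ℂ, 4 ≤ ‖z‖ → ‖v z‖ ≤ 1 / ‖z‖ := by
    intro z hz
    rw [hvV (hout hz)]
    exact hbig z hz
  have hvlim : Tendsto v (Bornology.cobounded ℂ) (𝓝 0) := by
    rw [tendsto_zero_iff_norm_tendsto_zero]
    have h1 : Tendsto (fun z : ℂ => 1 / ‖z‖) (Bornology.cobounded ℂ) (𝓝 0) := by
      simp only [one_div]
      exact tendsto_inv_atTop_zero.comp tendsto_norm_cobounded_atTop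
    refine squeeze_zero' (Eventually.of_forall fun z => norm_nonneg _) ?_ h1
    have h2 : ∀ᶠ z : ℂ in Bornology.cobounded ℂ, 4 ≤ ‖z‖ :=
      tendsto_norm_cobounded_atTop.eventually (eventually_ge_atTop 4)
    filter_upwards [h2] with z hz
    exact hvbig z hz
  obtain ⟨m, hmm, hmb, hmK, hmv, hmφ⟩ := hREP v (4000 / r) (filled n c) hMpos.le
    (isClosed_filled n c) hK4 hvc hvdiff hvlim hvCR
  -- value at the critical value
  have hvcval : v c = 1 := by
    have := hfeq 0
    rw [BRG_fd0 n hn, zero_pow (by omega), zero_add, zero_mul, zero_add] at this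
    exact this
  have hMC : ((4000 / r : ℝ) : ℂ) ≠ 0 := by
    exact_mod_cast hMpos.ne'
  have hpi : (Real.pi : ℂ) ≠ 0 := by exact_mod_cast Real.pi_ne_zero
  have hCT : ∀ b, NLF.CT m b = -Real.pi * v b := by
    intro b
    rw [hmv b]
    field_simp
  have hinvm : ∀ᵐ z : ℂ, m (z ^ n + c) * (starRingEnd ℂ) (fd n z) / fd n z = m z := by
    have h1 := hIVM n c (fun z => m z / ((4000 / r : ℝ) : ℂ)) hn hc3 (hmm.div_const _) (by
        intro z
        rw [norm_div, Complex.norm_real, Real.norm_of_nonneg hMpos.le, div_le_one hMpos]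
        exact hmb z) (by
        intro z hz
        have : m z ≠ 0 := fun h => hz (by simp [h])
        have := hK4 (hmK z this)
        rwa [mem_ball_zero_iff] at this) (by
        intro b
        rw [BRG_CTdiv, BRG_CTdiv, BRG_CTdiv, hCT, hCT, hCT, hfeq b, hvcval]
        field_simp
        ring)
    filter_upwards [h1] with z hz
    have h2 : m (z ^ n + c) * (starRingEnd ℂ) (fd n z) / fd n z =
        (m (z ^ n + c) / ((4000 / r : ℝ) : ℂ) * (starRingEnd ℂ) (fd n z) / fd n z) *
          ((4000 / r : ℝ) : ℂ) := by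
      generalize ((4000 / r : ℝ) : ℂ) = t at hMC ⊢
      calc m (z ^ n + c) * (starRingEnd ℂ) (fd n z) / fd n z
          = m (z ^ n + c) / t * t * (starRingEnd ℂ) (fd n z) / fd n z := by
            rw [div_mul_cancel₀ _ hMC]
        _ = _ := by ring
    rw [h2, hz, div_mul_cancel₀ _ hMC]
  have hnz : ¬ ∀ᵐ z : ℂ, m z = 0 := by
    intro h
    have h1 := BRG_CTzero m h c
    rw [hCT c, hvcval] at h1
    simp [hpi] at h1
  have hline := BRG_line n c m hmm (fun z hz => by rw [hjul]; exact hmK z hz) hinvm hnz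
  refine ⟨fun c' hc' => ⟨fun k z hk hz => hAR c' hc' k z hk hz, hball hc'⟩, hemp, hjul,
    v, m, fun z => m z / (‖m z‖ : ℂ), hvc, hvCR, hfeq, hvdiff, hvbig, hmm, hmb, hmK, hmv, hmφ,
    hinvm, hline.1, hline.2⟩

end BR
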