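import Pool.Agent.helper58.BR.SpecN
import Pool.Agent.helper12.LE.FinG

/-!
# Project BR (MP_baa4d7_al), BOUND-R: the final theorems
-/

set_option autoImplicit false

namespace Pool.Agent.BR

open Pool.Agent.helper58.DC Pool.Agent.DI Pool.Agent.GR Pool.Agent.OB Pool.Agent.DR Pool.Agent.FI Pool.Agent.FI3 Pool.Agent.FI4 Pool.Agent.FIL Pool.Agent.LE

/-- The rank gives the hypothesis `HIX`. -/
theorem FinX_hix (hLOA : LOA_stmt) (hRKI : RKI_stmt) {p : ℕ} {M : Ideal (integralClosure ℤ ℂ)} (hS : Setup p M)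
    {r : ℕ} (hr : 1 ≤ r) {G : Type} [Group G] [Finite G] {D : Subgroup G} {x : G} {θ χ : G → ℂ} (hR : Rt p M D x θ χ)
    (hrk : {u | u ∈ D ∧ u ^ p = 1}.ncard ≤ p ^ r) : HIX p (r * (r + 1) ^ 2) G D (TT M D θ) :=
  hRKI p r hS.pr hr G D (TT M D θ) hR.com hR.dfa.pgrp (fun _ ht => ht.1) (hLOA p M hS G D x θ χ hR).bet hrk

/-- The alternating sums, `O_p(G) = 1`, `E_B / E[B]` cyclic of order prime to `p`, under `HIX p c`. -/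
theorem FinX_dade (hLOA : LOA_stmt) (hA : R2A_stmt) (hC : R2Ca_stmt) (hD : R2Da_stmt) (hRKZ : RKZ_stmt)
    (hHHE : HHE_stmt) (hHZH : HZH_stmt) (hDC5 : Pool.Agent.L5.DC5_stmt) (hEJ5 : Pool.Agent.L5.EJ5_stmt)
    (hHEX : HEX_stmt) (hBD3 : BD3_stmt)
    (p : ℕ) (hpr : p.Prime) (hp2 : p ≠ 2) (M : Ideal (integralClosure ℤ ℂ)) (hM : M.IsMaximal)
    (hp : (p : integralClosure ℤ ℂ) ∈ M) (c : ℕ) (hc : 1 ≤ c)
    (G : Type) [Group G] [Finite G]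
    (χ : G → ℂ) (hχ : χ ∈ Irr G) (D : Subgroup G) (θ : G → ℂ)
    (h : AbelianDefect p M χ D θ) (hG : IsOp p (⊤ : Subgroup G) ⊥)
    (E A : Type) [Group E] [Group A] [Finite E] (X : Extension G E A) (s : A) (n v : ℕ) (hn : 0 < n)
    (hsn : s ^ n ∈ Pool.Agent.BQ.AI X M χ) (hpn : ¬ p ∣ n) (hJ : ¬ p ^ (v + 1) ∣ Pool.Agent.MAPW.J2 n)
    (hs : ∀ a ∈ Pool.Agent.BQ.AB X M χ, ∃ k : ℤ, s ^ k * a ∈ Pool.Agent.BQ.AI X M χ)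
    (hz : ∃ z ∈ D, z ^ p ^ (c + v - 1) ≠ 1) (hH : HIX p c G D (TT M D θ)) (U : Subgroup A) :
    ∑ᶠ d : ℤ, altSum X p M χ d U = 0 ∧
      (FewNonRegular p M D θ ∨ HeightZero p M χ D → ∀ d : ℤ, altSum X p M χ d U = 0) :=
  FinG_dade hLOA hA hC hD hRKZ hHHE hHZH hDC5 hEJ5 p hpr hp2 M hM hp (HIX p c) (hHEX p hpr c 1).1 c hc
    (hBD3 p M ⟨hpr, hM, hp⟩ hp2 c) G χ hχ D θ h hG E A X s n v hn hsn hpn hJ hs hz hH U

/-- The alternating sums, `O_p(G) = 1`, `E_B / E[B]` cyclic of order prime to `p`; `D` of rank at most `r` and exponent at least `p ^ (r * (r + 1) ^ 2 + v)`. -/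
theorem FinX_rank (hLOA : LOA_stmt) (hA : R2A_stmt) (hC : R2Ca_stmt) (hD : R2Da_stmt) (hRKZ : RKZ_stmt)
    (hHHE : HHE_stmt) (hHZH : HZH_stmt) (hDC5 : Pool.Agent.L5.DC5_stmt) (hEJ5 : Pool.Agent.L5.EJ5_stmt)
    (hHEX : HEX_stmt) (hBD3 : BD3_stmt) (hRKI : RKI_stmt)
    (p : ℕ) (hpr : p.Prime) (hp2 : p ≠ 2) (M : Ideal (integralClosure ℤ ℂ)) (hM : M.IsMaximal)
    (hp : (p : integralClosure ℤ ℂ) ∈ M) (r : ℕ) (hr : 1 ≤ r)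
    (G : Type) [Group G] [Finite G]
    (χ : G → ℂ) (hχ : χ ∈ Irr G) (D : Subgroup G) (θ : G → ℂ)
    (h : AbelianDefect p M χ D θ) (hG : IsOp p (⊤ : Subgroup G) ⊥)
    (E A : Type) [Group E] [Group A] [Finite E] (X : Extension G E A) (s : A) (n v : ℕ) (hn : 0 < n)
    (hsn : s ^ n ∈ Pool.Agent.BQ.AI X M χ) (hpn : ¬ p ∣ n) (hJ : ¬ p ^ (v + 1) ∣ Pool.Agent.MAPW.J2 n)
    (hs : ∀ a ∈ Pool.Agent.BQ.AB X M χ, ∃ k : ℤ, s ^ k * a ∈ Pool.Agent.BQ.AI X M χ)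
    (hrk : {u | u ∈ D ∧ u ^ p = 1}.ncard ≤ p ^ r)
    (hz : ∃ z ∈ D, z ^ p ^ (r * (r + 1) ^ 2 + v - 1) ≠ 1) (U : Subgroup A) :
    ∑ᶠ d : ℤ, altSum X p M χ d U = 0 ∧
      (FewNonRegular p M D θ ∨ HeightZero p M χ D → ∀ d : ℤ, altSum X p M χ d U = 0) := by
  have hS : Setup p M := ⟨hpr, hM, hp⟩
  obtain ⟨⟨x, hR⟩, -⟩ := FinL_std hpr hM hp hχ h
  have hc : 1 ≤ r * (r + 1) ^ 2 := Nat.mul_pos hr (pow_pos (Nat.succ_pos r) 2)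
  exact FinX_dade hLOA hA hC hD hRKZ hHHE hHZH hDC5 hEJ5 hHEX hBD3 p hpr hp2 M hM hp (r * (r + 1) ^ 2) hc G χ hχ D θ h hG
    E A X s n v hn hsn hpn hJ hs hz (FinX_hix hLOA hRKI hS hr hR hrk) U

/-- `k(B) = k(B_N)` and `l(B) = l(B_N)`, every `G`, under `HIX p c` and `HWE p c`. -/
theorem FinX_kl (hNIL : LE.NIL_stmt) (hDVZ : DVZ_stmt) (hHHE : HHE_stmt) (hAMG : AMG_stmt) (hXL : XL_stmt)
    (hHEX : HEX_stmt) (hBD3 : BD3_stmt)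
    (p : ℕ) (hpr : p.Prime) (hp2 : p ≠ 2) (M : Ideal (integralClosure ℤ ℂ)) (hM : M.IsMaximal)
    (hp : (p : integralClosure ℤ ℂ) ∈ M) (c : ℕ) (hc : 1 ≤ c)
    (G : Type) [Group G] [Finite G]
    (χ : G → ℂ) (hχ : χ ∈ Irr G) (D : Subgroup G) (θ : G → ℂ)
    (h : AbelianDefect p M χ D θ) (hH : HIX p c G D (TT M D θ)) (hW : HWE p c G D (TT M D θ)) :
    Nat.card {ψ : G → ℂ // ψ ∈ Irr G ∧ Induces M ψ χ} =
      Nat.card {ψ : G → ℂ // ψ ∈ IrrOn (Subgroup.normalizer (D : Set G)) ∧ Induces M ψ χ} ∧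
    Pool.Agent.FIV.brauerNumber p M χ ⊤ =
      Pool.Agent.FIV.brauerNumber p M χ (Subgroup.normalizer (D : Set G)) :=
  FinG_kl hNIL hDVZ hHHE hAMG hXL p hpr hp2 M hM hp (HIX p c) (hHEX p hpr c 1).1 c hc
    (hBD3 p M ⟨hpr, hM, hp⟩ hp2 c) G χ hχ D θ h hH hW

/-- The rank version. -/
theorem FinX_klr (hLOA : LOA_stmt) (hNIL : LE.NIL_stmt) (hDVZ : DVZ_stmt) (hHHE : HHE_stmt) (hAMG : AMG_stmt) (hXL : XL_stmt)
    (hHEX : HEX_stmt) (hBD3 : BD3_stmt) (hRKI : RKI_stmt)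
    (p : ℕ) (hpr : p.Prime) (hp2 : p ≠ 2) (M : Ideal (integralClosure ℤ ℂ)) (hM : M.IsMaximal)
    (hp : (p : integralClosure ℤ ℂ) ∈ M) (r : ℕ) (hr : 1 ≤ r)
    (G : Type) [Group G] [Finite G]
    (χ : G → ℂ) (hχ : χ ∈ Irr G) (D : Subgroup G) (θ : G → ℂ)
    (h : AbelianDefect p M χ D θ) (hrk : {u | u ∈ D ∧ u ^ p = 1}.ncard ≤ p ^ r)
    (hW : HWE p (r * (r + 1) ^ 2) G D (TT M D θ)) :
    Nat.card {ψ : G → ℂ // ψ ∈ Irr G ∧ Induces M ψ χ} =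
      Nat.card {ψ : G → ℂ // ψ ∈ IrrOn (Subgroup.normalizer (D : Set G)) ∧ Induces M ψ χ} ∧
    Pool.Agent.FIV.brauerNumber p M χ ⊤ =
      Pool.Agent.FIV.brauerNumber p M χ (Subgroup.normalizer (D : Set G)) := by
  have hS : Setup p M := ⟨hpr, hM, hp⟩
  obtain ⟨⟨x, hR⟩, -⟩ := FinL_std hpr hM hp hχ h
  have hc : 1 ≤ r * (r + 1) ^ 2 := Nat.mul_pos hr (pow_pos (Nat.succ_pos r) 2)
  exact FinX_kl hNIL hDVZ hHHE hAMG hXL hHEX hBD3 p hpr hp2 M hM hp (r * (r + 1) ^ 2) hc G χ hχ D θ h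
    (FinX_hix hLOA hRKI hS hr hR hrk) hW

end Pool.Agent.BR
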